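import Pool.Agent.S3.W2.PH

/-!
# Certificates of a slide
-/

set_option autoImplicit false

namespace Pool.Agent.S3.ScW5a

open Pool.Agent.S3.T2 Pool.Agent.S3.NI

def P : P1.Par := ⟨⟨378171870, 436368678⟩, ⟨0, 352831564⟩, 322122547, 1073741824, 40829032, 77408465⟩

def Q (p b z k : ℝ) : Prop := Q1 P 4 3 624917742 621696516 p b z k

theorem q {n : ℕ} {A B C D : N} (h : bbw (P1.test (P1.fin 4 3 624917742 621696516 0) ⟨⟨378171870, 436368678⟩, ⟨0, 352831564⟩, 322122547, 1073741824, 40829032, 77408465⟩) 200 1070 1000 1200 n A B C D = true) :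
    Bx4 Q A B C D := q1_of h

theorem p0 : Bx4 Q ⟨2524245784, 3305067032⟩ ⟨179167797, 391379821⟩ ⟨8375186, 541058505⟩ ⟨114033385, 278437730⟩ :=
  q (n := 40) (by decide +kernel)

theorem p1 : Bx4 Q ⟨2524245784, 3305067032⟩ ⟨179167797, 391379821⟩ ⟨541058505, 674229334⟩ ⟨114033385, 278437730⟩ :=
  q (n := 40) (by decide +kernel)

theorem p2 : Bx4 Q ⟨2524245784, 3305067032⟩ ⟨179167797, 285273809⟩ ⟨674229334, 807400164⟩ ⟨114033385, 196235557⟩ :=
  q (n := 40) (by decide +kernel)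

theorem p3 : Bx4 Q ⟨2524245784, 3305067032⟩ ⟨179167797, 285273809⟩ ⟨674229334, 807400164⟩ ⟨196235557, 278437730⟩ :=
  q (n := 40) (by decide +kernel)

theorem p4 : Bx4 Q ⟨2524245784, 3305067032⟩ ⟨285273809, 391379821⟩ ⟨674229334, 807400164⟩ ⟨114033385, 278437730⟩ :=
  q (n := 40) (by decide +kernel)

theorem p5 : Bx4 Q ⟨2524245784, 3305067032⟩ ⟨179167797, 391379821⟩ ⟨807400164, 1073741824⟩ ⟨114033385, 278437730⟩ :=
  q (n := 40) (by decide +kernel)

theorem c1 : Cert1 P 4 3 624917742 621696516 ⟨2524245784, 3305067032⟩ ⟨179167797, 391379821⟩ ⟨8375186, 1073741824⟩ ⟨114033385, 278437730⟩ where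
  hcd := by norm_num
  b := by decide +kernel
  z := by decide +kernel
  k := by decide +kernel
  bx := (.c p0 (.c (.c p1 (.b (.d p2 p3) p4)) p5))

end Pool.Agent.S3.ScW5a
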