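import Pool.Agent.S3.W2.PH

/-!
# Certificates of a slide
-/

set_option autoImplicit false

namespace Pool.Agent.S3.ScW5b

open Pool.Agent.S3.T2 Pool.Agent.S3.NI

def P : P1.Par := ⟨⟨259738147, 403404804⟩, ⟨0, 333396837⟩, 322122547, 1073741824, 19568944, 71195794⟩

def Q (p b z k : ℝ) : Prop := Q1 P 4 3 638876386 635655159 p b z k

theorem q {n : ℕ} {A B C D : N} (h : bbw (P1.test (P1.fin 4 3 638876386 635655159 0) ⟨⟨259738147, 403404804⟩, ⟨0, 333396837⟩, 322122547, 1073741824, 19568944, 71195794⟩) 163 1070 1000 800 n A B C D = true) :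
    Bx4 Q A B C D := q1_of h

theorem p0 : Bx4 Q ⟨2591812577, 3305067032⟩ ⟨179167797, 383809914⟩ ⟨8375186, 274716845⟩ ⟨79179041, 267754098⟩ :=
  q (n := 40) (by decide +kernel)

theorem p1 : Bx4 Q ⟨2591812577, 3305067032⟩ ⟨179167797, 383809914⟩ ⟨274716845, 541058505⟩ ⟨79179041, 267754098⟩ :=
  q (n := 40) (by decide +kernel)

theorem p2 : Bx4 Q ⟨2591812577, 3305067032⟩ ⟨179167797, 383809914⟩ ⟨541058505, 674229334⟩ ⟨79179041, 267754098⟩ :=
  q (n := 40) (by decide +kernel)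

theorem p3 : Bx4 Q ⟨2591812577, 3305067032⟩ ⟨179167797, 281488855⟩ ⟨674229334, 740814749⟩ ⟨79179041, 173466569⟩ :=
  q (n := 40) (by decide +kernel)

theorem p4 : Bx4 Q ⟨2591812577, 2948439804⟩ ⟨179167797, 230328326⟩ ⟨740814749, 807400164⟩ ⟨79179041, 173466569⟩ :=
  q (n := 40) (by decide +kernel)

theorem p5 : Bx4 Q ⟨2591812577, 2948439804⟩ ⟨230328326, 281488855⟩ ⟨740814749, 807400164⟩ ⟨79179041, 173466569⟩ :=
  q (n := 40) (by decide +kernel)

theorem p6 : Bx4 Q ⟨2948439804, 3305067032⟩ ⟨179167797, 281488855⟩ ⟨740814749, 807400164⟩ ⟨79179041, 173466569⟩ :=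
  q (n := 40) (by decide +kernel)

theorem p7 : Bx4 Q ⟨2591812577, 3305067032⟩ ⟨179167797, 281488855⟩ ⟨674229334, 807400164⟩ ⟨173466569, 267754098⟩ :=
  q (n := 40) (by decide +kernel)

theorem p8 : Bx4 Q ⟨2591812577, 3305067032⟩ ⟨281488855, 383809914⟩ ⟨674229334, 807400164⟩ ⟨79179041, 173466569⟩ :=
  q (n := 40) (by decide +kernel)

theorem p9 : Bx4 Q ⟨2591812577, 3305067032⟩ ⟨281488855, 383809914⟩ ⟨674229334, 740814749⟩ ⟨173466569, 267754098⟩ :=
  q (n := 40) (by decide +kernel)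

theorem p10 : Bx4 Q ⟨2591812577, 3305067032⟩ ⟨281488855, 383809914⟩ ⟨740814749, 807400164⟩ ⟨173466569, 267754098⟩ :=
  q (n := 40) (by decide +kernel)

theorem p11 : Bx4 Q ⟨2591812577, 3305067032⟩ ⟨179167797, 383809914⟩ ⟨807400164, 1073741824⟩ ⟨79179041, 267754098⟩ :=
  q (n := 40) (by decide +kernel)

theorem c1 : Cert1 P 4 3 638876386 635655159 ⟨2591812577, 3305067032⟩ ⟨179167797, 383809914⟩ ⟨8375186, 1073741824⟩ ⟨79179041, 267754098⟩ where
  hcd := by norm_num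
  b := by decide +kernel
  z := by decide +kernel
  k := by decide +kernel
  bx := (.c (.c p0 p1) (.c (.c p2 (.b (.d (.c p3 (.a (.b p4 p5) p6)) p7) (.d p8 (.c p9 p10)))) p11))

end Pool.Agent.S3.ScW5b
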